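import Pool.Agent.Helper5.KR.H19.TreeStm

set_option autoImplicit false

/-!
# The Cayley tree of a free group: chains (piece FREE-T, helper83)
-/

namespace Pool.Agent.Helper5.KR.H83

open Pool.Agent.Helper5.KR.H19 FreeGroup
open scoped Classical

variable {X : Type}

/-- no cancellation in the product `x * y` -/
def ok (x y : FreeGroup X) : Prop :=
  ∀ a ∈ x.toWord.getLast?, ∀ b ∈ y.toWord.head?, a.1 = b.1 → a.2 = b.2

lemma toWord_ok {x y : FreeGroup X} (h : ok x y) : (x * y).toWord = x.toWord ++ y.toWord := by
  rw [toWord_mul]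
  apply FreeGroup.IsReduced.reduce_eq
  unfold FreeGroup.IsReduced
  rw [List.isChain_append]
  exact ⟨isReduced_toWord, isReduced_toWord, h⟩

lemma norm_ok {x y : FreeGroup X} (h : ok x y) : (x * y).norm = x.norm + y.norm := by
  unfold FreeGroup.norm
  rw [toWord_ok h, List.length_append]

lemma toWord_lt (a : X × Bool) : (mk [a] : FreeGroup X).toWord = [a] := by
  rw [toWord_mk, reduce_singleton]

lemma norm_lt (a : X × Bool) : (mk [a] : FreeGroup X).norm = 1 := by
  unfold FreeGroup.norm
  rw [toWord_lt]
  rfl

lemma mk_inv (a : X × Bool) : (mk [a] : FreeGroup X)⁻¹ = mk [(a.1, !a.2)] := by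
  rw [inv_mk]
  rfl

/-- the last letter -/
lemma last_of_norm_le {u : FreeGroup X} {a : X × Bool} (h : (u * mk [a]).norm ≤ u.norm) :
    u.toWord.getLast? = some (a.1, !a.2) := by
  by_contra hne
  have hok : ok u (mk [a]) := by
    intro x hx y hy hxy
    rw [toWord_lt] at hy
    simp only [List.head?_cons, Option.mem_def, Option.some.injEq] at hy
    subst hy
    by_contra h2
    apply hne
    rw [Option.mem_def] at hx
    rw [hx]
    congr 1
    refine Prod.ext (show x.1 = (a.1, !a.2).1 from hxy) ?_
    show x.2 = !a.2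
    cases hx2 : x.2 <;> cases hy2 : a.2 <;> simp_all
  have := norm_ok hok
  rw [norm_lt] at this
  omega

/-- a word with a given last letter -/
lemma split_last {u : FreeGroup X} {a : X × Bool} (h : u.toWord.getLast? = some a) :
    ((u * (mk [a])⁻¹).norm + 1 = u.norm) ∧ u = (u * (mk [a])⁻¹) * mk [a] := by
  refine ⟨?_, by group⟩
  obtain ⟨w, hw⟩ := List.getLast?_eq_some_iff.1 h
  have hred : FreeGroup.IsReduced w := by
    have h1 : FreeGroup.IsReduced (w ++ [a]) := by rw [← hw]; exact isReduced_toWord
    unfold FreeGroup.IsReduced at h1 ⊢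
    rw [List.isChain_append] at h1
    exact h1.1
  have hu : u = mk w * mk [a] := by
    rw [mul_mk, ← hw, mk_toWord]
  have h2 : u * (mk [a])⁻¹ = mk w := by rw [hu]; group
  rw [h2]
  unfold FreeGroup.norm
  rw [hw, toWord_mk, hred.reduce_eq, List.length_append]
  rfl

lemma norm_left {x : FreeGroup X} {a : X × Bool} (h : ¬ ok (mk [a]) x) :
    (mk [a] * x).norm + 1 = x.norm := by
  unfold ok at h
  push Not at h
  obtain ⟨c, hc, b, hb, h1, h2⟩ := h
  rw [toWord_lt] at hc
  simp only [List.getLast?_singleton, Option.mem_def, Option.some.injEq] at hc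
  subst hc
  rw [Option.mem_def] at hb
  obtain ⟨w, hw⟩ := List.head?_eq_some_iff.1 hb
  have hred : FreeGroup.IsReduced w := by
    have h3 : FreeGroup.IsReduced ([b] ++ w) := by
      have : [b] ++ w = x.toWord := by rw [hw]; rfl
      rw [this]
      exact isReduced_toWord
    unfold FreeGroup.IsReduced at h3 ⊢
    rw [List.isChain_append] at h3
    exact h3.2.1
  have hx : x = mk [b] * mk w := by
    rw [mul_mk]
    have : [b] ++ w = x.toWord := by rw [hw]; rfl
    rw [this, mk_toWord]
  have hb' : (mk [b] : FreeGroup X) = (mk [a])⁻¹ := by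
    rw [mk_inv]
    congr 2
    refine Prod.ext (show b.1 = (a.1, !a.2).1 from h1.symm) ?_
    show b.2 = !a.2
    cases hx2 : a.2 <;> cases hy2 : b.2 <;> simp_all
  have h2 : mk [a] * x = mk w := by rw [hx, hb']; group
  rw [h2]
  unfold FreeGroup.norm
  rw [hw, toWord_mk, hred.reduce_eq, List.length_cons]

/-- the last letter of `h⁻¹ g` -/
lemma last_inv_mul {g h : FreeGroup X} {a : X × Bool} (ha : g.toWord.getLast? = some a)
    (hne : h ≠ g) (hle : h.norm ≤ g.norm) : (h⁻¹ * g).toWord.getLast? = some a := by
  set y := h⁻¹ * g with hy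
  have hy1 : y ≠ 1 := by
    intro h1
    apply hne
    rw [hy, inv_mul_eq_one] at h1
    exact h1
  have hyw : y.toWord ≠ [] := fun h1 => hy1 (toWord_eq_nil_iff.1 h1)
  obtain ⟨b, hb⟩ : ∃ b, y.toWord.getLast? = some b :=
    ⟨y.toWord.getLast hyw, List.getLast?_eq_some_getLast hyw⟩
  rw [hb]
  congr 1
  by_contra hab
  obtain ⟨w, hw⟩ := List.getLast?_eq_some_iff.1 hb
  have hok : ok g y⁻¹ := by
    intro c hc d hd hcd
    rw [Option.mem_def, ha, Option.some.injEq] at hc
    subst hc
    rw [toWord_inv, hw, invRev_append] at hd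
    simp only [invRev, List.map_cons, List.map_nil, List.reverse_cons, List.reverse_nil,
      List.nil_append, List.cons_append, List.head?_cons, Option.mem_def, Option.some.injEq] at hd
    subst hd
    simp only at hcd ⊢
    by_contra h2
    apply hab
    apply Prod.ext hcd.symm
    cases hx2 : a.2 <;> cases hy2 : b.2 <;> simp_all
  have h1 := norm_ok hok
  have h2 : g * y⁻¹ = h := by rw [hy]; group
  rw [h2, norm_inv_eq] at h1
  have h3 : y.norm ≠ 0 := fun h0 => hy1 (FreeGroup.norm_eq_zero.1 h0)
  omega

/-- the geometric lemma -/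
lemma geo {g h z : FreeGroup X} {a : X × Bool} {R : ℕ} (ha : g.toWord.getLast? = some a)
    (hne : h ≠ g) (hle : h.norm ≤ g.norm) (h1 : z ∈ ball R g) (h2 : z ∈ ball R h) :
    z ∈ ball R (g * (mk [a])⁻¹) := by
  simp only [ball, Set.mem_ofPred_eq] at h1 h2 ⊢
  have e1 : (g * (mk [a])⁻¹)⁻¹ * z = mk [a] * (g⁻¹ * z) := by group
  rw [e1]
  by_cases hok : ok (mk [a]) (g⁻¹ * z)
  · have h3 := norm_ok hok
    rw [norm_lt] at h3
    have hy := last_inv_mul ha hne hle
    have hok2 : ok (h⁻¹ * g) (g⁻¹ * z) := by
      intro c hc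
      rw [Option.mem_def, hy, Option.some.injEq] at hc
      subst hc
      apply hok
      rw [toWord_lt]
      rfl
    have h4 := norm_ok hok2
    have e2 : h⁻¹ * g * (g⁻¹ * z) = h⁻¹ * z := by group
    rw [e2] at h4
    have h5 : (h⁻¹ * g).norm ≠ 0 := by
      intro h0
      rw [FreeGroup.norm_eq_zero, inv_mul_eq_one] at h0
      exact hne h0
    omega
  · have h3 := norm_left hok
    omega

/-! ### INJ -/

lemma of_eq (s : X) : of s = mk [(s, true)] := rfl

lemma of_inv_eq (s : X) : (of s)⁻¹ = mk [(s, false)] := by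
  rw [of_eq, mk_inv]
  rfl

/-- the edge is determined by its far end -/
lemma edge_last {p : X × FreeGroup X} {u : FreeGroup X} (h : p.2 = u ∨ p.2 * of p.1 = u)
    (h1 : p.2.norm ≤ u.norm) (h2 : (p.2 * of p.1).norm ≤ u.norm) :
    (p.2 = u ∧ u.toWord.getLast? = some (p.1, false)) ∨
      (p.2 = u * (of p.1)⁻¹ ∧ u.toWord.getLast? = some (p.1, true)) := by
  rcases h with h | h
  · left
    refine ⟨h, ?_⟩
    rw [h, of_eq] at h2
    exact last_of_norm_le h2
  · right
    have h3 : p.2 = u * (of p.1)⁻¹ := by rw [← h]; group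
    refine ⟨h3, ?_⟩
    rw [h3, of_inv_eq] at h1
    exact last_of_norm_le h1

lemma edge_unique {p q : X × FreeGroup X} {u : FreeGroup X} (hp : p.2 = u ∨ p.2 * of p.1 = u)
    (hp1 : p.2.norm ≤ u.norm) (hp2 : (p.2 * of p.1).norm ≤ u.norm)
    (hq : q.2 = u ∨ q.2 * of q.1 = u) (hq1 : q.2.norm ≤ u.norm)
    (hq2 : (q.2 * of q.1).norm ≤ u.norm) : p = q := by
  rcases edge_last hp hp1 hp2 with ⟨a1, a2⟩ | ⟨a1, a2⟩ <;>
    rcases edge_last hq hq1 hq2 with ⟨b1, b2⟩ | ⟨b1, b2⟩
  · rw [a2, Option.some.injEq, Prod.mk.injEq] at b2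
    exact Prod.ext b2.1 (by rw [a1, b1])
  · rw [a2, Option.some.injEq, Prod.mk.injEq] at b2
    exact absurd b2.2 (by decide)
  · rw [a2, Option.some.injEq, Prod.mk.injEq] at b2
    exact absurd b2.2 (by decide)
  · rw [a2, Option.some.injEq, Prod.mk.injEq] at b2
    exact Prod.ext b2.1 (by rw [a1, b1, b2.1])

theorem t_INJ : S_INJ := by
  intro X L _ c hc
  by_contra hne
  have hsupp : c.support.Nonempty := Finsupp.support_nonempty_iff.2 hne
  obtain ⟨p0, hp0, hmax⟩ := Finset.exists_max_image c.support
    (fun p => max p.2.norm (p.2 * of p.1).norm) hsupp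
  obtain ⟨u, hu, hun⟩ : ∃ u, (p0.2 = u ∨ p0.2 * of p0.1 = u) ∧
      u.norm = max p0.2.norm (p0.2 * of p0.1).norm := by
    rcases le_total p0.2.norm (p0.2 * of p0.1).norm with h | h
    · exact ⟨_, Or.inr rfl, (max_eq_right h).symm⟩
    · exact ⟨_, Or.inl rfl, (max_eq_left h).symm⟩
  have hval : (bd c) u = ∑ p ∈ c.support, ((if p.2 = u then c p else 0) -
      (if p.2 * of p.1 = u then c p else 0)) := by
    unfold bd Finsupp.sum
    rw [Finsupp.finsetSum_apply]
    refine Finset.sum_congr rfl fun p _ => ?_
    rw [Finsupp.sub_apply, Finsupp.single_apply, Finsupp.single_apply]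
  rw [hc, Finsupp.zero_apply] at hval
  have hbd : ∀ p ∈ c.support, p.2.norm ≤ u.norm ∧ (p.2 * of p.1).norm ≤ u.norm := by
    intro p hp
    have := hmax p hp
    rw [← hun] at this
    exact ⟨(le_max_left _ _).trans this, (le_max_right _ _).trans this⟩
  rw [Finset.sum_eq_single p0] at hval
  · have hcp : c p0 ≠ 0 := Finsupp.mem_support_iff.1 hp0
    have hdiff : p0.2 ≠ p0.2 * of p0.1 := by
      intro h
      have h2 : of p0.1 = 1 := by
        have := congrArg (fun x => p0.2⁻¹ * x) h
        simpa using this.symm
      exact of_ne_one _ h2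
    rcases hu with h | h
    · rw [if_pos h, if_neg (fun h2 => hdiff (h.trans h2.symm)), sub_zero] at hval
      exact hcp hval.symm
    · rw [if_pos h, if_neg (fun h2 => hdiff (h2.trans h.symm)), zero_sub] at hval
      exact hcp (neg_eq_zero.1 hval.symm)
  · intro p hp hpp
    have h1 : ¬ (p.2 = u ∨ p.2 * of p.1 = u) := by
      intro h
      exact hpp (edge_unique h (hbd p hp).1 (hbd p hp).2 hu (hbd p0 hp0).1 (hbd p0 hp0).2)
    push Not at h1
    rw [if_neg h1.1, if_neg h1.2, sub_zero]
  · intro h
    exact absurd hp0 h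

/-! ### EXACT -/

/-- `bd` as a homomorphism -/
noncomputable def bdH (X L : Type) [AddCommGroup L] : (X × FreeGroup X →₀ L) →+ (FreeGroup X →₀ L) :=
  Finsupp.liftAddHom fun p => Finsupp.singleAddHom p.2 - Finsupp.singleAddHom (p.2 * of p.1)

lemma bd_eq {L : Type} [AddCommGroup L] (c : X × FreeGroup X →₀ L) : bd c = bdH X L c := rfl

lemma bdH_single {L : Type} [AddCommGroup L] (p : X × FreeGroup X) (l : L) :
    bdH X L (Finsupp.single p l) = Finsupp.single p.2 l - Finsupp.single (p.2 * of p.1) l := by
  unfold bdH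
  rw [Finsupp.liftAddHom_apply_single]
  rfl

/-- the sum of the values as a homomorphism -/
noncomputable def sumH (X L : Type) [AddCommGroup L] : (FreeGroup X →₀ L) →+ L :=
  Finsupp.liftAddHom fun _ => AddMonoidHom.id L

lemma sumH_single {L : Type} [AddCommGroup L] (g : FreeGroup X) (l : L) :
    sumH X L (Finsupp.single g l) = l := by
  unfold sumH
  rw [Finsupp.liftAddHom_apply_single]
  rfl

theorem t_EXACT : S_EXACT := by
  intro X L _ U hmono hinter R
  have main : ∀ n : ℕ, ∀ f : FreeGroup X →₀ L, ∑ g ∈ f.support, g.norm = n →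
      (∀ g, f g ∈ U (ball R g)) → sumH X L f = 0 →
      ∃ c : X × FreeGroup X →₀ L,
        (∀ s g, c (s, g) ∈ U (ball R g ∩ ball R (g * of s))) ∧ bdH X L c = f := by
    intro n
    induction n using Nat.strong_induction_on with
    | _ n ih =>
      intro f hn hf hs
      by_cases hf0 : f = 0
      · refine ⟨0, fun s g => ?_, ?_⟩
        · rw [Finsupp.zero_apply]
          exact AddSubgroup.zero_mem _
        · rw [map_zero, hf0]
      have hsupp : f.support.Nonempty := Finsupp.support_nonempty_iff.2 hf0
      obtain ⟨g, hg, hmax⟩ := Finset.exists_max_image f.support (fun g => g.norm) hsupp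
      have hsum : ∑ h ∈ f.support, f h = 0 := hs
      have hg1 : g ≠ 1 := by
        intro h1
        have h2 : f.support = {g} := by
          ext h
          rw [Finset.mem_singleton]
          constructor
          · intro hh
            have := hmax h hh
            simp only [h1, FreeGroup.norm_one, Nat.le_zero, FreeGroup.norm_eq_zero] at this
            rw [this, h1]
          · rintro rfl
            exact hg
        rw [h2, Finset.sum_singleton] at hsum
        exact (Finsupp.mem_support_iff.1 hg) hsum
      have hgw : g.toWord ≠ [] := fun h1 => hg1 (toWord_eq_nil_iff.1 h1)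
      obtain ⟨a, ha⟩ : ∃ a, g.toWord.getLast? = some a :=
        ⟨g.toWord.getLast hgw, List.getLast?_eq_some_getLast hgw⟩
      set g' := g * (mk [a])⁻¹ with hg'
      have hnorm : g'.norm + 1 = g.norm := (split_last ha).1
      have hgg' : g' ≠ g := by
        intro h
        rw [h] at hnorm
        omega
      set l := f g with hl
      -- the value at `g`
      have hlU : l ∈ U (ball R g ∩ ball R g') := by
        have h1 : l = - ∑ h ∈ f.support.erase g, f h := by
          rw [← Finset.add_sum_erase _ _ hg] at hsum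
          exact eq_neg_of_add_eq_zero_left hsum
        have h2 : l ∈ U (⋃ h ∈ f.support.erase g, ball R h) := by
          rw [h1]
          refine AddSubgroup.neg_mem _ (AddSubgroup.sum_mem _ fun h hh => ?_)
          exact hmono _ _ (Set.subset_biUnion_of_mem (u := fun h => ball R h) hh) (hf h)
        refine hmono _ _ ?_ (hinter _ _ _ (hf g) h2)
        rintro z ⟨hz1, hz2⟩
        refine ⟨hz1, ?_⟩
        rw [Set.mem_iUnion₂] at hz2
        obtain ⟨h, hh, hz3⟩ := hz2
        exact geo ha (Finset.ne_of_mem_erase hh) (hmax h (Finset.mem_of_mem_erase hh)) hz1 hz3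
      set f' := f - Finsupp.single g l + Finsupp.single g' l with hf'
      have hfg : f' g = 0 := by
        rw [hf', Finsupp.add_apply, Finsupp.sub_apply, Finsupp.single_eq_same,
          Finsupp.single_apply, if_neg hgg', ← hl, sub_self, add_zero]
      have hsub : f'.support ⊆ insert g' (f.support.erase g) := by
        intro h hh
        rw [Finset.mem_insert, Finset.mem_erase]
        by_cases h1 : h = g'
        · exact Or.inl h1
        right
        have h2 : h ≠ g := by
          intro h2
          rw [h2, Finsupp.mem_support_iff] at hh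
          exact hh hfg
        refine ⟨h2, ?_⟩
        rw [Finsupp.mem_support_iff] at hh ⊢
        rw [hf', Finsupp.add_apply, Finsupp.sub_apply, Finsupp.single_apply, Finsupp.single_apply,
          if_neg (Ne.symm h2), if_neg (Ne.symm h1), sub_zero, add_zero] at hh
        exact hh
      have hlt : ∑ h ∈ f'.support, h.norm < n := by
        have h1 : ∑ h ∈ f'.support, h.norm ≤ ∑ h ∈ insert g' (f.support.erase g), h.norm :=
          Finset.sum_le_sum_of_subset hsub
        have h2 : ∑ h ∈ insert g' (f.support.erase g), h.norm ≤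
            g'.norm + ∑ h ∈ f.support.erase g, h.norm := by
          by_cases h3 : g' ∈ f.support.erase g
          · rw [Finset.insert_eq_of_mem h3]
            exact Nat.le_add_left _ _
          · rw [Finset.sum_insert h3]
        have h4 := Finset.add_sum_erase f.support (fun h => h.norm) hg
        beta_reduce at h4
        omega
      have hfU : ∀ h, f' h ∈ U (ball R h) := by
        intro h
        by_cases h2 : h = g
        · rw [h2, hfg]
          exact AddSubgroup.zero_mem _
        by_cases h1 : h = g'
        · rw [h1, hf', Finsupp.add_apply, Finsupp.sub_apply, Finsupp.single_eq_same,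
            Finsupp.single_apply, if_neg hgg'.symm, sub_zero]
          exact AddSubgroup.add_mem _ (hf g') (hmono _ _ Set.inter_subset_right hlU)
        · rw [hf', Finsupp.add_apply, Finsupp.sub_apply, Finsupp.single_apply, Finsupp.single_apply,
            if_neg (Ne.symm h2), if_neg (Ne.symm h1), sub_zero, add_zero]
          exact hf h
      have hs' : sumH X L f' = 0 := by
        rw [hf', map_add, map_sub, sumH_single, sumH_single, hs, zero_sub, neg_add_cancel]
      obtain ⟨c', hc1, hc2⟩ := ih _ hlt f' rfl hfU hs'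
      have hff : f = f' + (Finsupp.single g l - Finsupp.single g' l) := by
        rw [hf']
        abel
      obtain ⟨s, b⟩ := a
      cases b
      · -- `g' = g * of s`
        have e1 : g' = g * of s := by
          rw [hg', mk_inv]
          rfl
        refine ⟨c' + Finsupp.single (s, g) l, ?_, ?_⟩
        · intro s' h
          rw [Finsupp.add_apply, Finsupp.single_apply]
          refine AddSubgroup.add_mem _ (hc1 s' h) ?_
          split_ifs with h1
          · rw [Prod.mk.injEq] at h1
            rw [← h1.1, ← h1.2, ← e1]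
            exact hlU
          · exact AddSubgroup.zero_mem _
        · rw [map_add, hc2, bdH_single]
          simp only
          rw [← e1, ← hff]
      · -- `g = g' * of s`
        have e1 : g' * of s = g := by
          rw [hg', of_eq]
          group
        refine ⟨c' - Finsupp.single (s, g') l, ?_, ?_⟩
        · intro s' h
          rw [Finsupp.sub_apply, Finsupp.single_apply]
          refine AddSubgroup.sub_mem _ (hc1 s' h) ?_
          split_ifs with h1
          · rw [Prod.mk.injEq] at h1
            rw [← h1.1, ← h1.2, e1, Set.inter_comm]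
            exact hlU
          · exact AddSubgroup.zero_mem _
        · rw [map_sub, hc2, bdH_single]
          simp only
          rw [e1, hf']
          abel
  intro f hf hs
  obtain ⟨c, h1, h2⟩ := main _ f rfl hf hs
  exact ⟨c, h1, h2⟩

end Pool.Agent.Helper5.KR.H83
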